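import Pool.Agent.H15.SC.TargetsX
import Pool.Agent.H87.SC.TypeP
import Pool.Agent.H36.SC.M1a

/-! Module IZ of b5_modules (MP_f2954d_ag). -/

set_option autoImplicit false

namespace Pool.Agent.H54.SCX

open SC Cardinal

theorem iz : T_IZ := by
  classical
  intro k K J _ _ _ _ F S hS hF hlt
  unfold Idx
  rw [if_neg]
  intro hind
  set E : IntermediateField F (Gen S) := kU F (genX S) with hE
  have hFE : ∀ s : K, s ∈ F → algebraMap K (Gen S) s ∈ E := fun s hs =>
    E.algebraMap_mem (⟨s, hs⟩ : F)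
  have hXE : ∀ x, genX S x ∈ E := fun x => IntermediateField.subset_adjoin F _ ⟨x, rfl⟩
  have hUE : ∀ x, genU S x ∈ E := by
    intro x
    unfold genU
    split_ifs with h
    · apply E.neg_mem
      apply E.sum_mem
      intro i _
      apply E.mul_mem
      · exact hFE _ (F.div_mem (hF _ _) (hF _ _))
      · exact hXE _
    · exact hXE _
  have h1 : AlgebraicIndependent k (fun x => (⟨genU S x, hUE x⟩ : E)) :=
    AlgebraicIndependent.of_comp (f := (E.val.restrictScalars k)) hind
  have h2 : #(Var S) ≤ Algebra.trdeg k E := h1.cardinalMk_le_trdeg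
  have h3 : Algebra.trdeg F E ≤ #{x : Var S // ¬ Pivot S x} := by
    have := Pool.Agent.H36.SC.isAlg_of_gen (Pool.Agent.H36.SC.xin F (genX S))
      (Pool.Agent.H36.SC.xin_gen (genX S))
    exact (Algebra.IsAlgebraic.trdeg_le_cardinalMk F
      (Set.range (Pool.Agent.H36.SC.xin F (genX S)))).trans Cardinal.mk_range_le
  have hff : FaithfulSMul F E :=
    (faithfulSMul_iff_algebraMap_injective F E).2 (algebraMap F E).injective
  have h4 := trdeg_add_eq k F (A := E)
  have h5 := Pool.Agent.H87.KN.card_nonpivot S hS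
  have hfin : #{x : Var S // ¬ Pivot S x} < Cardinal.aleph0 := Cardinal.mk_lt_aleph0
  rw [← h4, ← h5] at h2
  have h6 : #J + #{x : Var S // ¬ Pivot S x} ≤
      Algebra.trdeg k F + #{x : Var S // ¬ Pivot S x} :=
    h2.trans (add_le_add le_rfl h3)
  have h7 : #J ≤ Algebra.trdeg k F := (Cardinal.add_le_add_iff_of_lt_aleph0 hfin).1 h6
  rw [Cardinal.mk_fintype] at h7
  exact absurd h7 (not_le.2 hlt)

end Pool.Agent.H54.SCX
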