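import Pool.Agent.H15.SC.TargetsX

/-! Modules XP, XN of b5_modules (MP_f2954d_ag). -/

set_option autoImplicit false

namespace Pool.Agent.H54.SCX

open SC

theorem xp : T_XP := by
  intro K _ _ N w D D' S S' hS hS'
  refine ⟨?_, ?_⟩
  · intro m v
    set j := (finProdFinEquiv.symm m).1 with hj
    set l := (finProdFinEquiv.symm m).2 with hl
    show S.s j * S'.s l = 0 ∨ _
    by_cases h1 : S.s j = 0
    · exact Or.inl (by rw [h1, zero_mul])
    by_cases h2 : S'.s l = 0
    · exact Or.inl (by rw [h2, mul_zero])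
    right
    show 0 ≤ v.1.ord (S.s j * S'.s l) + (D + D') v
    rw [v.1.ord_mul _ _ h1 h2, Finsupp.add_apply]
    have e1 := (hS.1 j v).resolve_left h1
    have e2 := (hS'.1 l v).resolve_left h2
    omega
  · intro i hi p hp
    obtain ⟨j, hj⟩ := hS.2 i hi p hp
    obtain ⟨l, hl⟩ := hS'.2 i hi p hp
    refine ⟨finProdFinEquiv (j, l), ?_⟩
    have e : (S.mul S').s (finProdFinEquiv (j, l)) = S.s j * S'.s l := by
      show S.s (finProdFinEquiv.symm (finProdFinEquiv (j, l))).1 *
        S'.s (finProdFinEquiv.symm (finProdFinEquiv (j, l))).2 = _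
      rw [Equiv.symm_apply_apply]
    rw [e]
    refine ⟨mul_ne_zero hj.1 hl.1, fun v hv => ?_⟩
    rw [v.1.ord_mul _ _ hj.1 hl.1, Finsupp.add_apply]
    have e1 := hj.2 v hv
    have e2 := hl.2 v hv
    omega

theorem xn (hXD : T_XD) : T_XN := by
  intro K _ _ N n w hw i₀ hi₀
  have hNz : (wsys w).Nz := ⟨i₀, hi₀⟩
  refine ⟨?_, ?_⟩
  · have hfin : (Function.support fun v : PDiv w => v.1.ord (w i₀) - v.1.mo (wsys w)).Finite := by
      apply Set.Finite.subset (Set.finite_iUnion fun j => hXD K N n w hw (w j))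
      intro v hv
      rw [Function.mem_support] at hv
      by_contra hcon
      simp only [Set.mem_iUnion, Set.mem_ofPred_eq, not_exists, not_not] at hcon
      apply hv
      obtain ⟨j, hj, hj2⟩ := v.1.mo_exists (wsys w) hNz
      have e1 : v.1.ord (w j) = v.1.mo (wsys w) := hj2
      rw [hcon i₀, ← e1, hcon j]
      simp
    refine ⟨Finsupp.ofSupportFinite _ hfin, hi₀, fun v => rfl⟩
  · rintro H₀ ⟨-, hH⟩
    refine ⟨?_, ?_⟩
    · intro j v
      show w j / w i₀ = 0 ∨ 0 ≤ v.1.ord (w j / w i₀) + H₀ v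
      by_cases h1 : w j = 0
      · exact Or.inl (by rw [h1, zero_div])
      right
      rw [v.1.ord_div h1 hi₀, hH v]
      have := v.1.mo_le (wsys w) j h1
      have e1 : (wsys w).s j = w j := rfl
      rw [e1] at this
      omega
    · intro i hi p hp
      refine ⟨i, div_ne_zero hi hi₀, fun v hv => ?_⟩
      show v.1.ord (w i / w i₀) + H₀ v = 0
      rw [v.1.ord_div hi hi₀, hH v]
      have h1 : v.1.mo (wsys w) = v.1.ord (w i) := by
        apply le_antisymm
        · exact v.1.mo_le (wsys w) i hi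
        · apply v.1.le_mo hNz
          intro j hj
          have hj' : w j ≠ 0 := hj
          have h2 := hv.1 (w j / w i) (Algebra.subset_adjoin ⟨j, rfl⟩)
          rw [v.1.ord_div hj' hi] at h2
          show v.1.ord (w i) ≤ v.1.ord (w j)
          omega
      rw [h1]
      ring

end Pool.Agent.H54.SCX
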