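import Pool.Agent.H15.SC.TargetsX

/-! Modules XR3, XR4 of b5_modules (MP_f2954d_ag). -/

set_option autoImplicit false

namespace Pool.Agent.H54.SCX

open SC

theorem xr3 : T_XR3 := by
  intro k K L J _ _ _ _ _ _ _ S U T hU hT
  unfold Generates
  set M : IntermediateField (kU k U) L :=
    IntermediateField.adjoin (kU k U) {z : L | ∃ i j, z = (T.up L).s i / (T.up L).s j} with hM
  have hUM : ∀ x, U x ∈ M := by
    intro x
    have h1 : U x ∈ kU k U := IntermediateField.subset_adjoin k _ ⟨x, rfl⟩
    exact M.algebraMap_mem (⟨U x, h1⟩ : kU k U)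
  have hkM : ∀ c : k, algebraMap k L c ∈ M := by
    intro c
    have := M.algebraMap_mem (algebraMap k (kU k U) c)
    rwa [← IsScalarTower.algebraMap_apply k (kU k U) L] at this
  let M₁ : IntermediateField k K :=
    { carrier := {x | algebraMap K L x ∈ M}
      mul_mem' := by
        intro a b ha hb
        simp only [Set.mem_ofPred_eq] at *
        rw [map_mul]
        exact M.mul_mem ha hb
      one_mem' := by
        simp only [Set.mem_ofPred_eq, map_one]
        exact M.one_mem
      add_mem' := by
        intro a b ha hb
        simp only [Set.mem_ofPred_eq] at *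
        rw [map_add]
        exact M.add_mem ha hb
      zero_mem' := by
        simp only [Set.mem_ofPred_eq, map_zero]
        exact M.zero_mem
      algebraMap_mem' := by
        intro c
        simp only [Set.mem_ofPred_eq]
        rw [← IsScalarTower.algebraMap_apply]
        exact hkM c
      inv_mem' := by
        intro a ha
        simp only [Set.mem_ofPred_eq, map_inv₀] at *
        exact M.inv_mem ha }
  have hKM : ∀ x : K, algebraMap K L x ∈ M := by
    intro x
    have h1 : IntermediateField.adjoin k {z : K | ∃ i j, z = T.s i / T.s j} ≤ M₁ := by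
      rw [IntermediateField.adjoin_le_iff]
      rintro z ⟨i, j, rfl⟩
      show algebraMap K L (T.s i / T.s j) ∈ M
      rw [map_div₀]
      exact IntermediateField.subset_adjoin _ _ ⟨i, j, rfl⟩
    have h2 : x ∈ (⊤ : IntermediateField k K) := trivial
    rw [← (show _ = (⊤ : IntermediateField k K) from hT)] at h2
    exact h1 h2
  let M₂ : IntermediateField K L :=
    { carrier := {x | x ∈ M}
      mul_mem' := fun {a b} ha hb => M.mul_mem ha hb
      one_mem' := M.one_mem
      add_mem' := fun {a b} ha hb => M.add_mem ha hb
      zero_mem' := M.zero_mem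
      algebraMap_mem' := hKM
      inv_mem' := fun a ha => M.inv_mem ha }
  rw [eq_top_iff]
  intro x _
  have h1 : IntermediateField.adjoin K (Set.range U) ≤ M₂ := by
    rw [IntermediateField.adjoin_le_iff]
    rintro z ⟨y, rfl⟩
    exact hUM y
  have h2 : x ∈ (⊤ : IntermediateField K L) := trivial
  rw [← hU.gen] at h2
  exact h1 h2

theorem xr4 : T_XR4 := by
  intro k K L J _ _ _ _ _ _ _ S U T v hv hTz hgen hT
  have hmo : v.mo (T.up L) = 0 := DV.mo_up_trivial v hv
  unfold Generates
  set M : IntermediateField (kU k U) v.Res :=
    IntermediateField.adjoin (kU k U)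
      {z : v.Res | ∃ i j, z = (v.res (T.up L)).s i / (v.res (T.up L)).s j} with hM
  have hel : ∀ i, (v.res (T.up L)).s i = v.red (algebraMap K L (T.s i)) := by
    intro i
    show v.red ((T.up L).s i * v.unif ^ (- v.mo (T.up L))) = _
    rw [hmo, neg_zero, zpow_zero, mul_one]
  have hnn : ∀ x : K, 0 ≤ v.ord (algebraMap K L x) := fun x => (hv x).ge
  let M₁ : IntermediateField k K :=
    { carrier := {x | v.red (algebraMap K L x) ∈ M}
      mul_mem' := by
        intro a b ha hb
        simp only [Set.mem_ofPred_eq] at *
        rw [map_mul, v.red_mul (hnn a) (hnn b)]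
        exact M.mul_mem ha hb
      one_mem' := by
        simp only [Set.mem_ofPred_eq, map_one, v.red_one]
        exact M.one_mem
      add_mem' := by
        intro a b ha hb
        simp only [Set.mem_ofPred_eq] at *
        rw [map_add, v.red_add (hnn a) (hnn b)]
        exact M.add_mem ha hb
      zero_mem' := by
        simp only [Set.mem_ofPred_eq, map_zero, v.red_zero]
        exact M.zero_mem
      algebraMap_mem' := by
        intro c
        simp only [Set.mem_ofPred_eq]
        rw [← IsScalarTower.algebraMap_apply, IsScalarTower.algebraMap_apply k (kU k U) L,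
          v.red_algebraMap]
        exact M.algebraMap_mem _
      inv_mem' := by
        intro a ha
        simp only [Set.mem_ofPred_eq, map_inv₀] at *
        rw [v.red_inv (hv a)]
        exact M.inv_mem ha }
  have hKM : ∀ x : K, v.red (algebraMap K L x) ∈ M := by
    intro x
    have h1 : IntermediateField.adjoin k {z : K | ∃ i j, z = T.s i / T.s j} ≤ M₁ := by
      rw [IntermediateField.adjoin_le_iff]
      rintro z ⟨i, j, rfl⟩
      show v.red (algebraMap K L (T.s i / T.s j)) ∈ M
      rw [map_div₀, v.red_div (hnn _) (hv _)]
      apply IntermediateField.subset_adjoin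
      exact ⟨i, j, by rw [hel, hel]⟩
    have h2 : x ∈ (⊤ : IntermediateField k K) := trivial
    rw [← (show _ = (⊤ : IntermediateField k K) from hT)] at h2
    exact h1 h2
  rw [eq_top_iff, ← hgen, IntermediateField.adjoin_le_iff]
  rintro z ⟨x, rfl⟩
  exact hKM x

end Pool.Agent.H54.SCX
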