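import Pool.Agent.H15.SC.Ms

/-!
MP_f2954d_ag, block B5, module HX: the Hodge index inequality for two systems and a generic
complete intersection.
-/

namespace SC

open SCB

theorem hx (hG1a : T_G1a) (hG3i : T_G3i) (hG3t : T_G3t) (hHOD : T_HOD) (hXR3 : T_XR3) : T_HX := by
  intro k K J _ _ _ _ _ _ S A B hS hA hB hgA hgB htr
  have hG : IsGen S (genU S) := hG1a K J S hS
  have key : ∀ P Q : Sys K, P.Nz → Q.Nz →
      (AlgebraicIndependent k (genU S) → Idx (Sum.elim S ![P, Q]) k =
        Idx ![P.up (Gen S), Q.up (Gen S)] (kU k (genU S))) ∧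
      (¬ AlgebraicIndependent k (genU S) → Idx (Sum.elim S ![P, Q]) k = 0) := by
    intro P Q hP hQ
    have hT : ∀ j : Fin 2, ((![P, Q] : Fin 2 → Sys K) j).Nz := by
      intro j
      fin_cases j
      · exact hP
      · exact hQ
    obtain ⟨h1, h2⟩ := hG3i k K (Gen S) J (Fin 2) S ![P, Q] (genU S) hS hT hG
    refine ⟨fun h => ?_, h2⟩
    rw [h1 h]
    congr 1
    funext j
    fin_cases j <;> rfl
  by_cases hU : AlgebraicIndependent k (genU S)
  · rw [(key A A hA hA).1 hU, (key B B hB hB).1 hU, (key A B hA hB).1 hU]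
    obtain ⟨hess, -, htr'⟩ := hG3t k K (Gen S) J S (genU S) (Fintype.card J + 2) hS hG hU htr
    have := hess
    refine hHOD (kU k (genU S)) (Gen S) (A.up (Gen S)) (B.up (Gen S)) ?_ (Sys.up_nz _ hA)
      (Sys.up_nz _ hB) (hXR3 k K (Gen S) J S (genU S) A hG hgA)
      (hXR3 k K (Gen S) J S (genU S) B hG hgB)
    rw [htr']
    simp
  · rw [(key A A hA hA).2 hU]
    simp

end SC
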