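import Pool.Agent.H15.SC.Ms
import Pool.Agent.H54.SCX.XP

/-!
MP_f2954d_ag, block B5, modules PX and IV.
-/

namespace SC

open SCB

theorem px (hXR1 : T_XR1) (hXI : T_XI) (hXR2 : T_XR2) (hXH2 : T_XH2) (hXQ : T_XQ)
    (hPOS : T_POS) : T_PX := by
  intro K _ _ N n w i₀ H₀ hw hH J _ D T hN
  have hnz : ∀ j, (T j).Nz := fun j => ((hXQ K N n w hw i₀ H₀ hH).2.2.2.2.2 _ _ (hN j)).2
  refine ⟨fun hc => ?_, fun hc v => ?_⟩
  · have : Algebra.EssFiniteType ℂ K := hXI K N n w hw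
    refine hPOS ℂ K J T hnz ?_ fun j => hXR1 K N n w hw i₀ H₀ (D j) (T j) hH (hN j)
    rw [hw.dim, hc]
  · subst hc
    obtain ⟨h1, h2⟩ := hXH2 K N (Fintype.card J) w hw v
    exact hPOS ℂ v.1.Res J (fun j => v.1.res (T j)) (fun j => v.1.res_nz (hnz j)) h2
      fun j => hXR2 K N _ w hw i₀ H₀ (D j) (T j) hH (hN j) v

/-- a generating system is nonzero -/
theorem genSys_nz {K : Type} [Field K] [Algebra ℂ K] {N n : ℕ} {w : Fin (N + 1) → K}
    (hw : IsSmoothProj w n) {D : DivZ w} {S : Sys K} (h : GenSys D S) : S.Nz := by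
  obtain ⟨i, hi⟩ := hw.nonzero
  obtain ⟨p, hp⟩ := Ideal.exists_maximal (chart w i)
  obtain ⟨j, hj⟩ := h.2 i hi p hp
  exact ⟨j, hj.1⟩

theorem iv (hXS : T_XS) (hXL2 : T_XL2) (hXI : T_XI) (hM9 : T_M9) : T_IV := by
  intro K _ _ N n w hw J _ D T E S hc hT hS
  have hfin : Algebra.EssFiniteType ℂ K := hXI K N n w hw
  have htr : Algebra.trdeg ℂ K = (Fintype.card J + 1 : ℕ) := by rw [hw.dim, hc]
  obtain ⟨-, h2⟩ := hM9 ℂ K J T S (fun j => genSys_nz hw (hT j)) (genSys_nz hw hS) htr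
  rw [h2]
  have hmo : ∀ v : PDiv w, v.1.mo S = - E v :=
    (hXL2 K N n w hw E E S S (S.mul S) hS hS (Pool.Agent.H54.SCX.xp K N w E E S S hS hS)).2.1
  have hsupp : Function.support (fun v : DV ℂ K => v.mo S * (Idx (fun j => v.res (T j)) ℂ : ℤ)) ⊆
      ((E.support.map (Function.Embedding.subtype _) : Finset (DV ℂ K)) : Set (DV ℂ K)) := by
    intro v hv
    rw [Function.mem_support] at hv
    have hv1 : IsPrimeDivisor w v := by
      by_contra hcon
      apply hv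
      rw [hXS K N n w hw J T hc (fun j => ⟨D j, hT j⟩) v hcon]
      simp
    have hv2 : E ⟨v, hv1⟩ ≠ 0 := by
      intro hcon
      apply hv
      have := hmo ⟨v, hv1⟩
      rw [hcon] at this
      change v.mo S = _ at this
      rw [this]
      simp
    simp only [Finset.coe_map, Function.Embedding.subtype_apply, Set.mem_image,
      Finset.mem_coe, Finsupp.mem_support_iff]
    exact ⟨⟨v, hv1⟩, hv2, rfl⟩
  rw [finsum_eq_sum_of_support_subset _ hsupp, Finset.sum_map, ← Finset.sum_neg_distrib,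
    Finsupp.sum]
  refine Finset.sum_congr rfl fun v _ => ?_
  change -(v.1.mo S * _) = _
  rw [hmo v, neg_mul, neg_neg]
  rfl

end SC
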