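import Pool.Agent.H15.SC.TargetsY

/-!
MP_f2954d_ag, block B5, module YPOL: polarisation for a symmetric function which is additive on a
semigroup.
-/

namespace SC

/-- additivity over finite nonempty sums -/
theorem ypol_sum {M ι : Type} [AddCommGroup M] {V : Set M} (hV : ∀ a ∈ V, ∀ b ∈ V, a + b ∈ V)
    (φ : M → ℝ) (hφ : ∀ a ∈ V, ∀ b ∈ V, φ (a + b) = φ a + φ b) (a : ι → M) (s : Finset ι)
    (hs : s.Nonempty) (ha : ∀ k ∈ s, a k ∈ V) :
    ∑ k ∈ s, a k ∈ V ∧ φ (∑ k ∈ s, a k) = ∑ k ∈ s, φ (a k) := by
  classical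
  induction hs using Finset.Nonempty.cons_induction with
  | singleton k => simpa using ha k (by simp)
  | cons k s hk hs ih =>
    obtain ⟨h1, h2⟩ := ih fun l hl => ha l (Finset.mem_cons_of_mem hl)
    have h3 := ha k (Finset.mem_cons_self k s)
    rw [Finset.sum_cons, Finset.sum_cons]
    exact ⟨hV _ h3 _ h1, by rw [hφ _ h3 _ h1, h2]⟩

/-- expansion of a product of sums -/
theorem ypol_exp {M ι : Type} [AddCommGroup M] {V : Set M} (hV : ∀ a ∈ V, ∀ b ∈ V, a + b ∈ V)
    (a : ι → M) (s : Finset ι) (hs : s.Nonempty) (ha : ∀ k ∈ s, a k ∈ V) (n : ℕ)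
    (f : (Fin n → M) → ℝ)
    (hf : ∀ x : Fin n → M, (∀ i, x i ∈ V) → ∀ i, ∀ a ∈ V, ∀ b ∈ V,
      f (Function.update x i (a + b)) = f (Function.update x i a) + f (Function.update x i b)) :
    f (fun _ => ∑ k ∈ s, a k) =
      ∑ g ∈ Fintype.piFinset (fun _ : Fin n => s), f (fun j => a (g j)) := by
  classical
  induction n with
  | zero =>
    have h1 : Fintype.piFinset (fun _ : Fin 0 => s) = {Fin.elim0} := by
      ext g
      simp only [Fintype.mem_piFinset, Finset.mem_singleton]
      exact ⟨fun _ => Subsingleton.elim _ _, fun _ i => i.elim0⟩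
    rw [h1, Finset.sum_singleton]
    exact congrArg f (Subsingleton.elim _ _)
  | succ n ih =>
    obtain ⟨k₀, hk₀⟩ := hs
    have hsV : ∑ k ∈ s, a k ∈ V :=
      (ypol_sum hV (fun _ => 0) (by simp) a s ⟨k₀, hk₀⟩ ha).1
    have h0 : f (fun _ => ∑ k ∈ s, a k) =
        ∑ k ∈ s, f (Fin.cons (a k) (fun _ : Fin n => ∑ k ∈ s, a k)) := by
      have h1 : (fun _ : Fin (n + 1) => ∑ k ∈ s, a k) =
          Fin.cons (∑ k ∈ s, a k) (fun _ : Fin n => ∑ k ∈ s, a k) := by
        funext j
        refine Fin.cases ?_ (fun j => ?_) j <;> simp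
      rw [h1]
      refine (ypol_sum hV (fun z : M => f (Fin.cons z (fun _ : Fin n => ∑ k ∈ s, a k))) ?_ a s
        ⟨k₀, hk₀⟩ ha).2
      intro b hb c hc
      have h2 := hf (Fin.cons b (fun _ : Fin n => ∑ k ∈ s, a k)) (by
        intro j
        refine Fin.cases ?_ (fun j => ?_) j
        · simpa using hb
        · simpa using hsV) 0 b hb c hc
      simpa only [Fin.update_cons_zero] using h2
    have h1 : ∀ k ∈ s, f (Fin.cons (a k) (fun _ : Fin n => ∑ k ∈ s, a k)) =
        ∑ g ∈ Fintype.piFinset (fun _ : Fin n => s), f (Fin.cons (a k) (fun j => a (g j))) := by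
      intro k hk
      refine ih (fun y => f (Fin.cons (a k) y)) ?_
      intro x hx i b hb c hc
      have h2 := hf (Fin.cons (a k) x) (by
        intro j
        refine Fin.cases ?_ (fun j => ?_) j
        · simpa using ha k hk
        · simpa using hx j) i.succ b hb c hc
      simpa only [← Fin.cons_update] using h2
    rw [h0, Finset.sum_congr rfl h1, ← Finset.sum_product']
    refine Finset.sum_nbij' (fun p => Fin.cons p.1 p.2) (fun g => (g 0, Fin.tail g)) ?_ ?_ ?_ ?_ ?_
    · intro p hp
      rw [Finset.mem_product, Fintype.mem_piFinset] at hp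
      rw [Fintype.mem_piFinset]
      intro j
      refine Fin.cases ?_ (fun j => ?_) j
      · simpa using hp.1
      · simpa using hp.2 j
    · intro g hg
      rw [Fintype.mem_piFinset] at hg
      rw [Finset.mem_product, Fintype.mem_piFinset]
      exact ⟨hg 0, fun j => hg j.succ⟩
    · intro p _
      simp
    · intro g _
      simp
    · intro p _
      refine congrArg f ?_
      funext j
      refine Fin.cases ?_ (fun j => ?_) j <;> simp

theorem ypol : T_YPOL := by
  classical
  intro M _ V n f hn hV hf hsym h0 x hx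
  -- sums over the functions with values outside `U`
  have h1 : ∀ U : Finset (Fin n),
      ∑ g ∈ Fintype.piFinset (fun _ : Fin n => Uᶜ), f (fun j => x (g j)) = 0 := by
    intro U
    rcases Finset.eq_empty_or_nonempty Uᶜ with h | h
    · refine Finset.sum_eq_zero fun g hg => ?_
      rw [h, Fintype.mem_piFinset] at hg
      exact absurd (hg ⟨0, hn⟩) (by simp)
    · rw [← ypol_exp hV x Uᶜ h (fun k _ => hx k) n f hf]
      exact h0 _ (ypol_sum hV (fun _ => 0) (by simp) x Uᶜ h (fun k _ => hx k)).1
  have h2 : ∑ U : Finset (Fin n), (-1 : ℝ) ^ U.card *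
      ∑ g ∈ Fintype.piFinset (fun _ : Fin n => Uᶜ), f (fun j => x (g j)) = 0 :=
    Finset.sum_eq_zero fun U _ => by rw [h1 U, mul_zero]
  have h3 : ∀ U : Finset (Fin n), (-1 : ℝ) ^ U.card *
      ∑ g ∈ Fintype.piFinset (fun _ : Fin n => Uᶜ), f (fun j => x (g j)) =
      ∑ g : Fin n → Fin n, if U ⊆ (Finset.univ.image g)ᶜ then
        (-1 : ℝ) ^ U.card * f (fun j => x (g j)) else 0 := by
    intro U
    rw [Finset.mul_sum, ← Finset.sum_filter]
    refine Finset.sum_congr ?_ fun _ _ => rfl
    ext g
    simp only [Fintype.mem_piFinset, Finset.mem_compl, Finset.mem_filter, Finset.mem_univ,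
      true_and, Finset.subset_iff, Finset.mem_image, not_exists]
    constructor
    · intro h u hu j hj
      exact h j (hj ▸ hu)
    · intro h j hj
      exact h hj j rfl
  rw [Finset.sum_congr rfl fun U _ => h3 U, Finset.sum_comm] at h2
  have h4 : ∀ g : Fin n → Fin n, (∑ U : Finset (Fin n), if U ⊆ (Finset.univ.image g)ᶜ then
        (-1 : ℝ) ^ U.card * f (fun j => x (g j)) else 0) =
      if Function.Surjective g then f (fun j => x (g j)) else 0 := by
    intro g
    rw [← Finset.sum_filter]
    have h5 : (Finset.univ.filter fun U : Finset (Fin n) => U ⊆ (Finset.univ.image g)ᶜ) =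
        ((Finset.univ.image g)ᶜ).powerset := by
      ext U
      simp
    rw [h5, ← Finset.sum_mul]
    have h6 : (∑ U ∈ ((Finset.univ.image g)ᶜ).powerset, (-1 : ℝ) ^ U.card) =
        if (Finset.univ.image g)ᶜ = ∅ then 1 else 0 := by
      have := Finset.sum_powerset_neg_one_pow_card (x := (Finset.univ.image g)ᶜ)
      have h7 := congrArg (fun z : ℤ => (z : ℝ)) this
      push_cast at h7
      rw [h7]
    rw [h6]
    have h8 : (Finset.univ.image g)ᶜ = ∅ ↔ Function.Surjective g := by
      rw [Finset.compl_eq_empty_iff, Finset.eq_univ_iff_forall]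
      simp [Function.Surjective]
    simp only [h8]
    split_ifs <;> simp
  rw [Finset.sum_congr rfl fun g _ => h4 g, ← Finset.sum_filter] at h2
  have h9 : ∑ g ∈ Finset.univ.filter (fun g : Fin n → Fin n => Function.Surjective g),
      f (fun j => x (g j)) = ∑ σ : Equiv.Perm (Fin n), f (fun j => x (σ j)) := by
    symm
    refine Finset.sum_bij (fun σ _ => (σ : Fin n → Fin n)) ?_ ?_ ?_ ?_
    · intro σ _
      simp [σ.surjective]
    · intro σ _ τ _ h
      exact Equiv.ext (congrFun h)
    · intro g hg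
      have hg1 : Function.Surjective g := by simpa using hg
      exact ⟨Equiv.ofBijective g (Finite.surjective_iff_bijective.1 hg1), by simp, rfl⟩
    · intro σ _
      rfl
  rw [h9, Finset.sum_congr rfl fun σ _ => hsym σ x, Finset.sum_const, nsmul_eq_mul] at h2
  rcases mul_eq_zero.1 h2 with h | h
  · exfalso
    rw [Finset.card_univ, Fintype.card_perm] at h
    exact absurd h (by positivity)
  · exact h

end SC
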